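import Pool.Agent.H12.N6E.ETHL

/-!
Row ETHD: Theorem D.
-/

set_option autoImplicit false

open Polynomial NumberField IsDedekindDomain Pool.Agent.H32.QC Pool.Agent.H34.N6
  Pool.Agent.H13.DEV

namespace Pool.Agent.H12.N6E

variable {k L : Type} [Field k] [NumberField k] [Field L] [NumberField L] [Algebra k L]

open Classical in
/-- the value at the complex places -/
noncomputable def gi (e : L) (G : Pl k → k[X]) (w : InfinitePlace L) : L :=
  if h : ∃ φ : k →+* ℝ, w.embedding.comp (algebraMap k L) = Complex.ofRealHom.comp φ then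
    aeval e (G (Sum.inr h.choose)) else 1

lemma ofReal_comp_inj {φ ψ : k →+* ℝ}
    (h : Complex.ofRealHom.comp φ = Complex.ofRealHom.comp ψ) : φ = ψ := by
  ext x
  have h1 := RingHom.congr_fun h x
  simp only [RingHom.comp_apply, Complex.ofRealHom_eq_coe, Complex.ofReal_inj] at h1
  exact h1

lemma gi_eq (e : L) (G : Pl k → k[X]) (w : InfinitePlace L) (φ : k →+* ℝ)
    (h : w.embedding.comp (algebraMap k L) = Complex.ofRealHom.comp φ) :
    gi e G w = aeval e (G (Sum.inr φ)) := by
  have hex : ∃ φ : k →+* ℝ, w.embedding.comp (algebraMap k L) = Complex.ofRealHom.comp φ :=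
    ⟨φ, h⟩
  unfold gi
  rw [dif_pos hex]
  have h1 : hex.choose = φ := ofReal_comp_inj (hex.choose_spec.symm.trans h)
  rw [h1]

/-- one embedding -/
lemma norm_emb_lt {e : L} {G : Pl k → k[X]} {A : Finset (Pl L)} {S : Finset (Pl k)} {ε : ℝ}
    {η : L} (hA : ∀ w, w ∈ A ↔ bel (k := k) w ∈ S)
    (h1 : ∀ w ∈ A, av w (η - aeval e (G (bel (k := k) w))) < ε)
    (h2 : ∀ w : InfinitePlace L, w.IsComplex → w (η - gi e G w) < ε)
    (φ : k →+* ℝ) (hφ : Sum.inr φ ∈ S) (σ : L →+* ℂ)
    (hσ : σ.comp (algebraMap k L) = Complex.ofRealHom.comp φ) :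
    ‖σ (η - aeval e (G (Sum.inr φ)))‖ < ε := by
  by_cases hr : ComplexEmbedding.IsReal σ
  · have hψ : Complex.ofRealHom.comp (hr.embedding.comp (algebraMap k L)) =
        Complex.ofRealHom.comp φ := by
      rw [← hσ]
      ext x
      simp only [RingHom.comp_apply, Complex.ofRealHom_eq_coe]
      exact hr.coe_embedding_apply _
    have hψ' := ofReal_comp_inj hψ
    have hb : bel (k := k) (Sum.inr hr.embedding : Pl L) = Sum.inr φ := by
      simp only [bel]
      rw [hψ']
    have h3 := h1 (Sum.inr hr.embedding) ((hA _).2 (by rw [hb]; exact hφ))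
    rw [hb] at h3
    simp only [av] at h3
    rw [← hr.coe_embedding_apply, Complex.norm_real, Real.norm_eq_abs]
    exact h3
  · set w := InfinitePlace.mk σ with hw
    have hc : w.IsComplex := InfinitePlace.isComplex_iff.2 (by
      rcases InfinitePlace.embedding_mk_eq σ with h | h
      · rw [hw, h]
        exact hr
      · rw [hw, h]
        intro h3
        exact hr (ComplexEmbedding.isReal_conjugate_iff.1 h3))
    have he : w.embedding.comp (algebraMap k L) = Complex.ofRealHom.comp φ := by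
      rcases InfinitePlace.embedding_mk_eq σ with h | h
      · rw [hw, h, hσ]
      · rw [hw, h]
        ext x
        have h4 := RingHom.congr_fun hσ x
        simp only [RingHom.comp_apply, Complex.ofRealHom_eq_coe] at h4
        simp only [RingHom.comp_apply, Complex.ofRealHom_eq_coe,
          ComplexEmbedding.conjugate_coe_eq]
        rw [h4, Complex.conj_ofReal]
    have h3 := h2 w hc
    rw [gi_eq e G w φ he] at h3
    rw [hw, InfinitePlace.apply] at h3
    exact h3

theorem pf_THD (hETA : T_ETA) (hCFI : T_CFI) (hCFC : T_CFC) (hCFR : T_CFR) (hHPO : T_HPO)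
    (hPMU : T_PMU) (hFIN : T_FIN) (hBEL : T_BEL) : T_THD := by
  intro k L _ _ _ _ _ P D e S N p G ε hP hGen hsq hgood hreal hN hp hpS hS hsg
  classical
  have he : aeval e P = 0 := by
    rw [← hGen.mp]
    exact minpoly.aeval k e
  have hδ0 : aeval e D ≠ 0 := by
    intro h
    apply hsq
    rw [h]
    exact IsSquare.zero
  -- the places above
  have hAfin : {w : Pl L | bel (k := k) w ∈ S}.Finite := by
    have h1 : {w : Pl L | bel (k := k) w ∈ S} = ⋃ v ∈ S, {w : Pl L | bel (k := k) w = v} := by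
      ext w
      simp
    rw [h1]
    exact Set.Finite.biUnion S.finite_toSet fun v _ => (hFIN k L).1 v
  obtain ⟨A, hA⟩ : ∃ A : Finset (Pl L), ∀ w, w ∈ A ↔ bel (k := k) w ∈ S :=
    ⟨hAfin.toFinset, fun w => by rw [Set.Finite.mem_toFinset]; rfl⟩
  have hval : ∀ w : FPl L, Sum.inl w ∉ A → w.valuation L 2 = 1 ∧
      w.valuation L (aeval e D) = 1 := by
    intro w hw
    have h1 : Sum.inl (w.under (𝓞 k)) ∉ S := fun h => hw ((hA _).2 h)
    have h2 := hgood _ h1
    refine ⟨?_, (norm_one_iff w _).1 (delta_one hP h2 he)⟩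
    rw [← norm_one_iff]
    have h3 := norm_up_one w (2 : k) h2.two
    rwa [map_ofNat (algebraMap k L) 2] at h3
  have hprod : ∏ w ∈ A, hs w (aeval e (G (bel (k := k) w))) (aeval e D) = 1 := by
    rw [← hsg]
    unfold sg
    have h1 : ∀ w : Pl L, (bel (k := k) w ∈ S) ↔ w ∈ (A : Set (Pl L)) := fun w => by
      rw [Finset.mem_coe, hA]
    rw [← finprod_mem_coe_finset]
    refine finprod_congr fun w => ?_
    exact finprod_congr_Prop (propext (h1 w)).symm fun _ => rfl
  -- closeness of the remainders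
  have hrem : ∀ v ∈ S, ∃ ε1 : ℝ, 0 < ε1 ∧ ∀ (c : ℝ) (η : L) (G0 : k[X]), c ≤ ε1 →
      G0.degree < P.degree → aeval e G0 = η →
      (∀ w ∈ A, av w (η - aeval e (G (bel (k := k) w))) < c) →
      (∀ w : InfinitePlace L, w.IsComplex → w (η - gi e G w) < c) →
      Close v (ε v / 2) (G0 - G v %ₘ P) 0 := by
    intro v hv
    have hεv : 0 < ε v / 2 := half_pos (hS v hv).1
    have hd : ∀ G0 : k[X], G0.degree < P.degree → (G0 - G v %ₘ P).degree < P.degree := by
      intro G0 hG0
      exact (degree_sub_le _ _).trans_lt (max_lt hG0 (degree_modByMonic_lt _ hP))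
    have hv2 : ∀ (G0 : k[X]) (η : L), aeval e G0 = η →
        aeval e (G0 - G v %ₘ P) = η - aeval e (G v) := by
      intro G0 η h
      rw [map_sub, h, Polynomial.aeval_modByMonic_eq_self_of_root he]
    cases v with
    | inl v =>
      obtain ⟨ε1, h1, h2⟩ := hCFC k L P e v hGen _ hεv
      refine ⟨ε1, h1, ?_⟩
      intro c η G0 hc hG0 hη hw1 hw2
      refine h2 _ (hd G0 hG0) ?_
      intro w hw
      rw [hv2 G0 η hη]
      have hb : bel (k := k) (Sum.inl w : Pl L) = Sum.inl v := by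
        simp only [bel]
        rw [hw]
      have h3 := hw1 (Sum.inl w) ((hA _).2 (by rw [hb]; exact hv))
      rw [hb] at h3
      exact lt_of_lt_of_le h3 hc
    | inr φ =>
      obtain ⟨ε1, h1, h2⟩ := hCFR k L P e φ hGen _ hεv
      refine ⟨ε1, h1, ?_⟩
      intro c η G0 hc hG0 hη hw1 hw2
      refine h2 _ (hd G0 hG0) ?_
      intro σ hσ
      rw [hv2 G0 η hη]
      exact lt_of_lt_of_le (norm_emb_lt hA hw1 hw2 φ hv σ hσ) hc
  have hpm : ∀ v ∈ S, ∃ ε2 : ℝ, 0 < ε2 ∧ ∀ (c : ℝ) (Q : k[X]), c ≤ ε2 → Q.natDegree ≤ N →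
      Close v c Q 0 → Close v (ε v / 2) (P * Q) 0 := by
    intro v hv
    obtain ⟨ε2, h1, h2⟩ := hPMU k v P N (ε v / 2) (half_pos (hS v hv).1)
    refine ⟨ε2, h1, fun c Q hc hQ h => h2 Q hQ fun i => lt_of_lt_of_le (h i) hc⟩
  choose! ε1 hε1 hrem using hrem
  choose! ε2 hε2 hpm using hpm
  obtain ⟨c1, hc1, hc1'⟩ := exists_min S ε1 hε1
  obtain ⟨c2, hc2, hc2'⟩ := exists_min S ε2 hε2
  -- the element
  obtain ⟨η, hη1, hη2, hη3⟩ := hETA L (aeval e D) p A
    (fun w => aeval e (G (bel (k := k) w))) (gi e G) c1 hδ0 hp hc1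
    (fun w hw h => hpS _ ((hA _).1 hw) (((hBEL k L w).2.1 p).1 h))
    (fun ψ => (hA _).2 (hreal _)) hval (fun w hw => (hS _ ((hA _).1 hw)).2.2.2) hprod
  obtain ⟨G0, hG0, hG0e⟩ := exists_rep hP hGen η
  -- the cofactor
  have hmd : ∀ v ∈ S, (G v /ₘ P).Monic ∧ (G v /ₘ P).natDegree = N - P.natDegree := by
    intro v hv
    obtain ⟨-, h1, h2, -⟩ := hS v hv
    refine ⟨?_, ?_⟩
    · have h3 : P.degree ≤ (G v).degree := by
        rw [degree_eq_natDegree hP.ne_zero, degree_eq_natDegree h1.ne_zero, h2]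
        exact_mod_cast hN
      unfold Monic
      rw [leadingCoeff_divByMonic_of_monic hP h3]
      exact h1
    · rw [natDegree_divByMonic _ hP, h2]
  obtain ⟨H, hH1, hH2, hH3, hH4⟩ := hHPO k S p (N - P.natDegree) (fun v => G v /ₘ P) c2 hp hpS
    hmd hc2
  have hPH : (P * H).Monic := hP.mul hH1
  have hdPH : G0.degree < (P * H).degree :=
    lt_of_lt_of_le hG0 (degree_le_mul_left P hH1.ne_zero)
  have haG : aeval e (G0 + P * H) = η := by
    rw [map_add, map_mul, he, zero_mul, add_zero, hG0e]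
  refine ⟨G0 + P * H, ?_, ?_, ?_, ?_, ?_, ?_⟩
  · exact hPH.add_of_right hdPH
  · rw [natDegree_add_eq_right_of_degree_lt hdPH, hP.natDegree_mul hH1, hH2]
    omega
  · rw [haG]
    -- a place off everything
    have hinf := Pool.Agent.H23.QCF.All.inert L (aeval e D) hsq
    have hfin : ({w : FPl L | Sum.inl w ∈ A} ∪ {w : FPl L | (p : 𝓞 L) ∈ w.asIdeal}).Finite := by
      refine Set.Finite.union ?_ ((hFIN k L).2.1 p hp)
      exact A.finite_toSet.preimage (Sum.inl_injective.injOn)
    obtain ⟨w, hw1, hw2⟩ := (hinf.diff hfin).nonempty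
    have h3 : Sum.inl w ∉ A := fun h => hw2 (Or.inl h)
    have h4 : (p : 𝓞 L) ∉ w.asIdeal := fun h => hw2 (Or.inr h)
    have h5 := (hη3 w h3 h4).2 hw1
    intro h
    rw [h, map_zero, norm_zero] at h5
    exact zero_ne_one h5
  · intro v hv
    rw [← close_sub]
    have h1 : G0 + P * H - G v = (G0 - G v %ₘ P) + P * (H - G v /ₘ P) := by
      have h2 := modByMonic_add_div (G v) P
      linear_combination h2
    rw [h1]
    refine close_add ?_ ?_
    · exact hrem v hv c1 η G0 (hc1' v hv) hG0 hG0e hη1 hη2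
    · refine hpm v hv c2 _ (hc2' v hv) ?_ (close_sub.2 (hH3 v hv))
      refine (natDegree_sub_le _ _).trans ?_
      rw [hH2, (hmd v hv).2, max_self]
      omega
  · intro v hv hpv
    have h1 := hgood v hv
    refine Int.add ?_ (Int.mul h1.intP (hH4 v hv hpv))
    refine hCFI k L P D e v hGen h1 G0 hG0 ?_
    intro w hw
    rw [hG0e]
    refine (hη3 w ?_ ?_).1
    · intro h
      have h2 := (hA _).1 h
      simp only [bel] at h2
      rw [hw] at h2
      exact hv h2
    · intro h
      have h2 := ((hBEL k L w).2.1 p).1 h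
      rw [hw] at h2
      exact hpv h2
  · intro w hw hpw hns
    rw [haG]
    exact (hη3 w (fun h => hw ((hA _).1 h)) hpw).2 hns

end Pool.Agent.H12.N6E
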