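import Pool.Agent.H13.DEV.Targets
import Pool.Agent.H34.N6.LibC
import Pool.Agent.H23.QCF.All

/-!
Lemmas for Theorem D.
-/

set_option autoImplicit false

open Polynomial NumberField IsDedekindDomain Pool.Agent.H32.QC Pool.Agent.H34.N6
  Pool.Agent.H13.DEV

namespace Pool.Agent.H12.N6E

variable {k L : Type} [Field k] [NumberField k] [Field L] [NumberField L]

/-- the integral elements at a place -/
noncomputable def OI (w : FPl L) : Subring L := (w.valuation L).integer

lemma mem_OI (w : FPl L) (x : L) : x ∈ OI w ↔ ‖ic w x‖ ≤ 1 := by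
  rw [norm_ic_le_one_iff]
  rfl

lemma norm_one_iff (w : FPl L) (x : L) : ‖ic w x‖ = 1 ↔ w.valuation L x = 1 := by
  by_cases hx : x = 0
  · subst hx
    rw [map_zero, norm_zero, map_zero]
    exact ⟨fun h => absurd h (by norm_num), fun h => absurd h (by simp)⟩
  have hv : w.valuation L x ≠ 0 := (Valuation.ne_zero_iff _).2 hx
  have hn : 0 < ‖ic w x‖ := norm_pos_iff.2 ((map_ne_zero (ic w)).2 hx)
  have h1 := norm_ic_le_one_iff w x
  have h2 := norm_ic_le_one_iff w x⁻¹
  rw [map_inv₀, norm_inv, map_inv₀, inv_le_one_iff₀, inv_le_one₀ (zero_lt_iff.2 hv)] at h2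
  constructor
  · intro h
    refine le_antisymm (h1.1 h.le) (h2.1 (Or.inr h.ge))
  · intro h
    refine le_antisymm (h1.2 h.le) ?_
    rcases h2.2 h.ge with h3 | h3
    · linarith
    · exact h3

lemma int_mem (v : FPl k) (G : k[X]) : Int v G ↔ ∀ i, G.coeff i ∈ OI v :=
  forall_congr' fun _ => (mem_OI v _).symm

lemma Int.mul {v : FPl k} {G H : k[X]} (hG : Int v G) (hH : Int v H) : Int v (G * H) := by
  rw [int_mem] at *
  intro i
  rw [coeff_mul]
  exact Subring.sum_mem _ fun x _ => Subring.mul_mem _ (hG _) (hH _)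

lemma Int.add {v : FPl k} {G H : k[X]} (hG : Int v G) (hH : Int v H) : Int v (G + H) := by
  rw [int_mem] at *
  intro i
  rw [coeff_add]
  exact Subring.add_mem _ (hG _) (hH _)

variable [Algebra k L]

lemma coeff_up {w : FPl L} {Q : k[X]} (hQ : Int (w.under (𝓞 k)) Q) (i : ℕ) :
    algebraMap k L (Q.coeff i) ∈ OI w := by
  rw [mem_OI]
  exact norm_up_le w _ (hQ i)

lemma aeval_int {w : FPl L} {Q : k[X]} (hQ : Int (w.under (𝓞 k)) Q) {e : L}
    (he : ‖ic w e‖ ≤ 1) : ‖ic w (aeval e Q)‖ ≤ 1 := by
  rw [← mem_OI] at *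
  rw [aeval_eq_sum_range]
  refine Subring.sum_mem _ fun i _ => ?_
  rw [Algebra.smul_def]
  exact Subring.mul_mem _ (coeff_up hQ i) (Subring.pow_mem _ he i)

lemma root_int {w : FPl L} {P : k[X]} (hP : P.Monic) (hI : Int (w.under (𝓞 k)) P) {e : L}
    (he : aeval e P = 0) : ‖ic w e‖ ≤ 1 := by
  rw [← mem_OI]
  set P' : L[X] := P.map (algebraMap k L) with hP'
  have hc : (↑P'.coeffs : Set L) ⊆ (OI w : Subring L) := by
    intro x hx
    rw [Finset.mem_coe, Polynomial.mem_coeffs_iff] at hx
    obtain ⟨n, -, rfl⟩ := hx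
    rw [hP', coeff_map]
    exact coeff_up hI n
  have hint : IsIntegral (OI w) e := by
    refine ⟨P'.toSubring (OI w) hc, ?_, ?_⟩
    · rw [Polynomial.monic_toSubring]
      exact hP.map _
    · have h1 : (P'.toSubring (OI w) hc).map (Subring.subtype (OI w)) = P' :=
        Polynomial.map_toSubring _ _ _
      have h2 : eval₂ (algebraMap (OI w) L) e (P'.toSubring (OI w) hc) =
          eval e ((P'.toSubring (OI w) hc).map (Subring.subtype (OI w))) := by
        rw [eval_map]
        rfl
      rw [h2, h1, hP', eval_map_algebraMap, he]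
  exact (Valuation.integer.integers (w.valuation L)).mem_of_integral hint

lemma delta_one {w : FPl L} {P D : k[X]} (hP : P.Monic) (hG : GoodAt P D (w.under (𝓞 k)))
    {e : L} (he : aeval e P = 0) : ‖ic w (aeval e D)‖ = 1 := by
  have hei := root_int hP hG.intP he
  obtain ⟨a, b, -, hb, hab⟩ := hG.cop
  have h1 := aeval_int hG.intD hei
  have h2 := aeval_int hb hei
  have h3 : ic w (aeval e b) * ic w (aeval e D) = 1 := by
    rw [← map_mul, ← map_mul]
    have h4 := congrArg (aeval e) hab
    rw [map_add, map_mul, he, mul_zero, zero_add, map_one] at h4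
    rw [h4, map_one]
  have h5 : ‖ic w (aeval e b)‖ * ‖ic w (aeval e D)‖ = 1 := by
    rw [← norm_mul, h3, norm_one]
  nlinarith [norm_nonneg (ic w (aeval e b)), norm_nonneg (ic w (aeval e D))]

lemma av_add_le {K : Type} [Field K] [NumberField K] (w : Pl K) (x y : K) :
    av w (x + y) ≤ av w x + av w y := by
  cases w with
  | inl w =>
    simp only [av]
    rw [map_add]
    exact norm_add_le _ _
  | inr φ =>
    simp only [av]
    rw [map_add]
    exact abs_add_le _ _

lemma close_sub {K : Type} [Field K] [NumberField K] {v : Pl K} {ε : ℝ} {G G' : K[X]} :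
    Close v ε (G - G') 0 ↔ Close v ε G G' := by
  unfold Close
  rw [sub_zero]

lemma close_add {K : Type} [Field K] [NumberField K] {v : Pl K} {ε : ℝ} {G G' : K[X]}
    (h : Close v (ε / 2) G 0) (h' : Close v (ε / 2) G' 0) : Close v ε (G + G') 0 := by
  intro i
  have h1 := h i
  have h2 := h' i
  rw [sub_zero] at *
  rw [coeff_add]
  have := av_add_le v (G.coeff i) (G'.coeff i)
  linarith

lemma exists_min {α : Type*} (S : Finset α) (f : α → ℝ) (hf : ∀ v ∈ S, 0 < f v) :
    ∃ c : ℝ, 0 < c ∧ ∀ v ∈ S, c ≤ f v := by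
  classical
  induction S using Finset.induction_on with
  | empty => exact ⟨1, one_pos, by simp⟩
  | insert a S ha ih =>
    obtain ⟨c, hc, h⟩ := ih fun v hv => hf v (Finset.mem_insert_of_mem hv)
    refine ⟨min c (f a), lt_min hc (hf a (Finset.mem_insert_self _ _)), ?_⟩
    intro v hv
    rcases Finset.mem_insert.1 hv with rfl | hv
    · exact min_le_right _ _
    · exact (min_le_left _ _).trans (h v hv)

/-- elements of `L` are polynomials in `e` -/
lemma exists_rep {P : k[X]} {e : L} (hP : P.Monic) (hG : Gen P e) (η : L) :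
    ∃ G0 : k[X], G0.degree < P.degree ∧ aeval e G0 = η := by
  have he : aeval e P = 0 := by
    rw [← hG.mp]
    exact minpoly.aeval k e
  have hint : IsIntegral k e := ⟨P, hP, he⟩
  have h1 : η ∈ IntermediateField.adjoin k {e} := by
    rw [hG.adj]
    exact IntermediateField.mem_top
  rw [← IntermediateField.mem_toSubalgebra,
    IntermediateField.adjoin_simple_toSubalgebra_of_isAlgebraic hint.isAlgebraic,
    Algebra.adjoin_singleton_eq_range_aeval] at h1
  obtain ⟨Q, hQ⟩ := h1
  refine ⟨Q %ₘ P, degree_modByMonic_lt Q hP, ?_⟩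
  rw [Polynomial.aeval_modByMonic_eq_self_of_root he]
  exact hQ

end Pool.Agent.H12.N6E
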